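import Mathlib

/-!
# Good subsets of 2-edge-coloured graphs can be smaller than `n / 3`

We give 2-edge-coloured graphs on `217` vertices all of whose good subsets have at most `72`
vertices, which is less than `217 / 3`.  Seven *terminals* are taken, and for each of the `35`
three-element sets `S` of terminals a six-vertex gadget `c₀, …, c₅`:

* `c₀ c₁ c₂ c₃ c₄ c₅` is a cycle coloured alternately (red `c₀c₁`, blue `c₁c₂`, …, blue `c₅c₀`);
* moreover `c₁c₃`, `c₁c₅` are red and `c₂c₀`, `c₂c₄` are blue;
* `c₃, c₅` are joined in red, and `c₀, c₄` in blue, to the three terminals of `S`.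

A good set meets each gadget in at most two vertices, and in at most one vertex if it contains
the three terminals of the gadget.
-/

open Finset

namespace Pool.Agent.Results.MP_1e7754_co.GoodSetsBelowThird

/-- The two colours. -/
inductive Colour
  | red
  | blue
  deriving DecidableEq

/-- The number of vertices of `S` that are joined to `v` by an edge of colour `k`, in the graph
`G` whose edges are coloured by `c` (the values of `c` off the edges of `G` play no role). -/
noncomputable def deg {V : Type} (G : SimpleGraph V) (c : Sym2 V → Colour) (k : Colour)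
    (v : V) (S : Set V) : ℕ :=
  Set.ncard {u | u ∈ S ∧ G.Adj v u ∧ c s(v, u) = k}

/-- `X` is good: for every vertex `v` of `X` and each of the two colours, at least half of the
neighbours of `v` in this colour lie outside `X`. -/
def Good {V : Type} (G : SimpleGraph V) (c : Sym2 V → Colour) (X : Set V) : Prop :=
  ∀ v ∈ X, ∀ k : Colour, (1 / 2 : ℚ) * deg G c k v Set.univ ≤ deg G c k v Xᶜ

/-! ### A counting lemma -/

lemma key {V : Type} [Finite V] {G : SimpleGraph V} {c : Sym2 V → Colour} {X : Set V}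
    (hX : Good G c X) {v : V} (hv : v ∈ X) (k : Colour) (P Q : Finset V)
    (hP : ∀ u ∈ P, u ∈ X ∧ G.Adj v u ∧ c s(v, u) = k)
    (hQ : ∀ u, u ∉ X → G.Adj v u → c s(v, u) = k → u ∈ Q) : P.card ≤ Q.card := by
  have h := hX v hv k
  have hsplit : deg G c k v Set.univ = deg G c k v X + deg G c k v Xᶜ := by
    unfold deg
    rw [← Set.ncard_union_eq _ (Set.toFinite _) (Set.toFinite _)]
    · congr 1
      ext u
      simp only [Set.mem_ofPred_eq, Set.mem_univ, true_and, Set.mem_union, Set.mem_compl_iff]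
      tauto
    · rw [Set.disjoint_left]
      rintro u ⟨h1, _⟩ ⟨h2, _⟩
      exact h2 h1
  have h1 : deg G c k v X ≤ deg G c k v Xᶜ := by
    rw [hsplit] at h
    push_cast at h
    have : (deg G c k v X : ℚ) ≤ deg G c k v Xᶜ := by linarith
    exact_mod_cast this
  have h2 : P.card ≤ deg G c k v X := by
    rw [← Set.ncard_coe_finset P]
    exact Set.ncard_le_ncard (fun u hu => hP u (by exact_mod_cast hu)) (Set.toFinite _)
  have h3 : deg G c k v Xᶜ ≤ Q.card := by
    rw [← Set.ncard_coe_finset Q]
    refine Set.ncard_le_ncard (fun u hu => ?_) (Set.toFinite _)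
    obtain ⟨a, b, d⟩ := hu
    exact_mod_cast hQ u a b d
  omega

/-! ### The gadget -/

/-- Edges inside a gadget. -/
def inner : Colour → Fin 6 → Fin 6 → Bool
  | .red, i, j => (i, j) ∈ ([(0, 1), (2, 3), (4, 5), (1, 3), (1, 5),
      (1, 0), (3, 2), (5, 4), (3, 1), (5, 1)] : List (Fin 6 × Fin 6))
  | .blue, i, j => (i, j) ∈ ([(1, 2), (3, 4), (5, 0), (2, 0), (2, 4),
      (2, 1), (4, 3), (0, 5), (0, 2), (4, 2)] : List (Fin 6 × Fin 6))

/-- Gadget vertices joined to the terminals. -/
def outer : Colour → Fin 6 → Bool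
  | .red, i => i = 3 ∨ i = 5
  | .blue, i => i = 0 ∨ i = 4

/-- Three-element sets of terminals. -/
abbrev Tr : Type := {s : Finset (Fin 7) // s.card = 3}

/-- The vertices: seven terminals and `35` gadgets. -/
abbrev V0 : Type := Fin 7 ⊕ (Tr × Fin 6)

/-- Coloured adjacency. -/
def rel (k : Colour) : V0 → V0 → Prop
  | .inl _, .inl _ => False
  | .inl t, .inr (S, i) => t ∈ S.1 ∧ outer k i = true
  | .inr (S, i), .inl t => t ∈ S.1 ∧ outer k i = true
  | .inr (S, i), .inr (T, j) => S = T ∧ inner k i j = true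

lemma inner_symm : ∀ (k : Colour) (i j : Fin 6), inner k i j = inner k j i := by
  intro k; cases k <;> decide

lemma inner_irrefl : ∀ (k : Colour) (i : Fin 6), inner k i i = false := by
  intro k; cases k <;> decide

lemma inner_disj : ∀ (i j : Fin 6), inner .red i j = true → inner .blue i j = false := by
  decide

lemma outer_disj : ∀ (i : Fin 6), outer .red i = true → outer .blue i = false := by
  decide

lemma rel_symm (k : Colour) (u v : V0) (h : rel k u v) : rel k v u := by
  rcases u with t | ⟨S, i⟩ <;> rcases v with t' | ⟨T, j⟩ <;> simp only [rel] at h ⊢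
  · exact h
  · exact h
  · exact ⟨h.1.symm, by rw [inner_symm]; exact h.2⟩

lemma rel_irrefl (k : Colour) (u : V0) : ¬ rel k u u := by
  rcases u with t | ⟨S, i⟩ <;> simp [rel, inner_irrefl]

lemma rel_disj (u v : V0) (h : rel .red u v) : ¬ rel .blue u v := by
  rcases u with t | ⟨S, i⟩ <;> rcases v with t' | ⟨T, j⟩ <;> simp only [rel] at h ⊢
  · rw [outer_disj _ h.2]; simp
  · rw [outer_disj _ h.2]; simp
  · rw [inner_disj _ _ h.2]; simp

/-! ### Counting in one copy -/

lemma count_six (x : Fin 6 → Prop) [DecidablePred x]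
    (h01 : ¬ (x 0 ∧ x 1)) (h12 : ¬ (x 1 ∧ x 2)) (h23 : ¬ (x 2 ∧ x 3)) (h34 : ¬ (x 3 ∧ x 4))
    (h45 : ¬ (x 4 ∧ x 5)) (h50 : ¬ (x 5 ∧ x 0)) (h135 : ¬ (x 1 ∧ x 3 ∧ x 5))
    (h024 : ¬ (x 2 ∧ x 0 ∧ x 4)) : (univ.filter x).card ≤ 2 := by
  rw [Finset.card_filter, Fin.sum_univ_six]
  by_cases a0 : x 0 <;> by_cases a1 : x 1 <;> by_cases a2 : x 2 <;> by_cases a3 : x 3 <;>
    by_cases a4 : x 4 <;> by_cases a5 : x 5 <;> simp_all

lemma count_six' (x : Fin 6 → Prop) [DecidablePred x]
    (h0 : ¬ x 0) (h3 : ¬ x 3) (h4 : ¬ x 4) (h5 : ¬ x 5) (h12 : ¬ (x 1 ∧ x 2)) :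
    (univ.filter x).card ≤ 1 := by
  rw [Finset.card_filter, Fin.sum_univ_six]
  by_cases a1 : x 1 <;> by_cases a2 : x 2 <;> simp_all

/-- The number of three-element subsets of `A`. -/
lemma card_triples (A : Finset (Fin 7)) :
    (univ.filter (fun S : Tr => S.1 ⊆ A)).card = A.card.choose 3 := by
  rw [← Finset.card_powersetCard]
  refine Finset.card_bij (fun S _ => S.1) ?_ ?_ ?_
  · intro S hS
    rw [Finset.mem_powersetCard]
    exact ⟨(Finset.mem_filter.mp hS).2, S.2⟩
  · intro S _ T _ h
    exact Subtype.ext h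
  · intro s hs
    rw [Finset.mem_powersetCard] at hs
    exact ⟨⟨s, hs.2⟩, Finset.mem_filter.mpr ⟨Finset.mem_univ _, hs.1⟩, rfl⟩

open Classical in
/-- A good set contains at most `72` vertices of every copy of the graph on `V0`. -/
lemma copy_card {V : Type} [Finite V] {G : SimpleGraph V} {c : Sym2 V → Colour} {X : Set V}
    (hX : Good G c X) (f : V0 → V) (hf : Function.Injective f)
    (hrel : ∀ (k : Colour) (p : Tr × Fin 6) (w : V),
      (G.Adj (f (.inr p)) w ∧ c s(f (.inr p), w) = k) ↔ ∃ u, w = f u ∧ rel k (.inr p) u) :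
    (univ.filter (fun u : V0 => f u ∈ X)).card ≤ 72 := by
  -- the counting lemma in terms of `V0`
  have key' : ∀ (p : Tr × Fin 6) (k : Colour) (P Q : Finset V0), f (.inr p) ∈ X →
      (∀ u ∈ P, f u ∈ X ∧ rel k (.inr p) u) →
      (∀ u, f u ∉ X → rel k (.inr p) u → u ∈ Q) → P.card ≤ Q.card := by
    intro p k P Q hp hP hQ
    have := key hX hp k (P.map ⟨f, hf⟩) (Q.map ⟨f, hf⟩) (by
      intro u hu
      obtain ⟨w, hw, rfl⟩ := Finset.mem_map.mp hu
      exact ⟨(hP w hw).1, (hrel k p _).mpr ⟨w, rfl, (hP w hw).2⟩⟩) (by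
      intro u hu h1 h2
      obtain ⟨w, rfl, hw⟩ := (hrel k p u).mp ⟨h1, h2⟩
      exact Finset.mem_map.mpr ⟨w, hQ w hu hw, rfl⟩)
    simpa using this
  -- conflicts inside a gadget
  have pair : ∀ (S : Tr) (k : Colour) (i j : Fin 6), outer k i = false →
      (∀ l, inner k i l = true ↔ l = j) →
      ¬ (f (.inr (S, i)) ∈ X ∧ f (.inr (S, j)) ∈ X) := by
    rintro S k i j ho hi ⟨h1, h2⟩
    have := key' (S, i) k {.inr (S, j)} ∅ h1 (by
      intro u hu
      rw [Finset.mem_singleton] at hu
      subst hu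
      exact ⟨h2, rfl, (hi j).mpr rfl⟩) (by
      rintro (t | ⟨T, l⟩) hu hr
      · simp only [rel] at hr
        rw [ho] at hr
        exact absurd hr.2 (by simp)
      · simp only [rel] at hr
        obtain ⟨rfl, hr2⟩ := hr
        rw [(hi l).mp hr2] at hu
        exact absurd h2 hu)
    simp at this
  have triple : ∀ (S : Tr) (k : Colour) (i j l m : Fin 6), outer k i = false → j ≠ l →
      (∀ a, inner k i a = true ↔ a = j ∨ a = l ∨ a = m) →
      ¬ (f (.inr (S, i)) ∈ X ∧ f (.inr (S, j)) ∈ X ∧ f (.inr (S, l)) ∈ X) := by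
    rintro S k i j l m ho hjl hi ⟨h1, h2, h3⟩
    have := key' (S, i) k {.inr (S, j), .inr (S, l)} {.inr (S, m)} h1 (by
      intro u hu
      rw [Finset.mem_insert, Finset.mem_singleton] at hu
      rcases hu with rfl | rfl
      · exact ⟨h2, rfl, (hi j).mpr (Or.inl rfl)⟩
      · exact ⟨h3, rfl, (hi l).mpr (Or.inr (Or.inl rfl))⟩) (by
      rintro (t | ⟨T, a⟩) hu hr
      · simp only [rel] at hr
        rw [ho] at hr
        exact absurd hr.2 (by simp)
      · simp only [rel] at hr
        obtain ⟨rfl, hr2⟩ := hr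
        rcases (hi a).mp hr2 with rfl | rfl | rfl
        · exact absurd h2 hu
        · exact absurd h3 hu
        · exact Finset.mem_singleton_self _)
    rw [Finset.card_pair (by simpa using hjl), Finset.card_singleton] at this
    omega
  have kill : ∀ (S : Tr) (k : Colour) (i j l : Fin 6),
      (∀ a, inner k i a = true → a = j ∨ a = l) → outer k i = true →
      (∀ t ∈ S.1, f (.inl t) ∈ X) → ¬ (f (.inr (S, i)) ∈ X) := by
    intro S k i j l hi ho hS h1
    have := key' (S, i) k (S.1.map ⟨Sum.inl, Sum.inl_injective⟩)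
      {.inr (S, j), .inr (S, l)} h1 (by
      intro u hu
      obtain ⟨t, ht, rfl⟩ := Finset.mem_map.mp hu
      exact ⟨hS t ht, ht, ho⟩) (by
      rintro (t | ⟨T, a⟩) hu hr
      · simp only [rel] at hr
        exact absurd (hS t hr.1) hu
      · simp only [rel] at hr
        obtain ⟨rfl, hr2⟩ := hr
        rcases hi a hr2 with rfl | rfl
        · simp
        · simp)
    rw [Finset.card_map, S.2] at this
    have h2 := Finset.card_le_two (a := (Sum.inr (S, j) : V0)) (b := Sum.inr (S, l))
    omega
  -- the bound for one gadget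
  set A : Finset (Fin 7) := univ.filter (fun t => f (.inl t) ∈ X) with hA
  have gadget : ∀ S : Tr, (univ.filter (fun i : Fin 6 => f (.inr (S, i)) ∈ X)).card +
      (if S.1 ⊆ A then 1 else 0) ≤ 2 := by
    intro S
    split_ifs with hS
    · have hS' : ∀ t ∈ S.1, f (.inl t) ∈ X := fun t ht => by
        have := hS ht
        rw [hA, Finset.mem_filter] at this
        exact this.2
      have := count_six' (fun i : Fin 6 => f (.inr (S, i)) ∈ X)
        (kill S .blue 0 5 2 (by decide) (by decide) hS')
        (kill S .red 3 2 1 (by decide) (by decide) hS')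
        (kill S .blue 4 3 2 (by decide) (by decide) hS')
        (kill S .red 5 4 1 (by decide) (by decide) hS')
        (pair S .blue 1 2 (by decide) (by decide))
      omega
    · exact count_six (fun i : Fin 6 => f (.inr (S, i)) ∈ X)
        (pair S .red 0 1 (by decide) (by decide))
        (pair S .blue 1 2 (by decide) (by decide))
        (pair S .red 2 3 (by decide) (by decide))
        (pair S .blue 3 4 (by decide) (by decide))
        (pair S .red 4 5 (by decide) (by decide))
        (pair S .blue 5 0 (by decide) (by decide))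
        (triple S .red 1 3 5 0 (by decide) (by decide) (by decide))
        (triple S .blue 2 0 4 1 (by decide) (by decide) (by decide))
  have htotal : (univ.filter (fun u : V0 => f u ∈ X)).card =
      A.card + ∑ S : Tr, (univ.filter (fun i : Fin 6 => f (.inr (S, i)) ∈ X)).card := by
    simp only [hA, Finset.card_filter]
    rw [Fintype.sum_sum_type, Fintype.sum_prod_type]
  have hsum : ∑ S : Tr, (univ.filter (fun i : Fin 6 => f (.inr (S, i)) ∈ X)).card +
      A.card.choose 3 ≤ 70 := by
    rw [← card_triples A, Finset.card_filter, ← Finset.sum_add_distrib]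
    calc _ ≤ ∑ _S : Tr, 2 := Finset.sum_le_sum fun S _ => gadget S
      _ = 70 := by
        rw [Finset.sum_const, Finset.card_univ, Fintype.card_finset_len, Fintype.card_fin,
          show Nat.choose 7 3 = 35 by decide]
        norm_num
  have hA7 : A.card ≤ 7 := by
    have := Finset.card_le_univ A
    simpa using this
  rw [htotal]
  generalize A.card = a at *
  interval_cases a <;> simp [Nat.choose] at hsum <;> omega

/-! ### Copies, and the passage to `Fin n` -/

/-- `q` copies of the graph on `V0` and `r` isolated vertices. -/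
def rel1 (q r : ℕ) (k : Colour) : (Fin q × V0) ⊕ Fin r → (Fin q × V0) ⊕ Fin r → Prop
  | .inl (a, u), .inl (b, v) => a = b ∧ rel k u v
  | .inl _, .inr _ => False
  | .inr _, .inl _ => False
  | .inr _, .inr _ => False

lemma rel1_symm (q r : ℕ) (k : Colour) (u v) (h : rel1 q r k u v) : rel1 q r k v u := by
  rcases u with ⟨a, u⟩ | i <;> rcases v with ⟨b, v⟩ | j <;> simp only [rel1] at h ⊢
  exact ⟨h.1.symm, rel_symm k u v h.2⟩

lemma rel1_irrefl (q r : ℕ) (k : Colour) (u) : ¬ rel1 q r k u u := by
  rcases u with ⟨a, u⟩ | i <;> simp [rel1, rel_irrefl]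

lemma rel1_disj (q r : ℕ) (u v) (h : rel1 q r .red u v) : ¬ rel1 q r .blue u v := by
  rcases u with ⟨a, u⟩ | i <;> rcases v with ⟨b, v⟩ | j <;> simp only [rel1] at h ⊢
  exact fun h' => rel_disj u v h.2 h'.2

open Classical in
lemma exists_graph {V : Type} {n : ℕ} (e : V ≃ Fin n) (R : Colour → V → V → Prop)
    (hs : ∀ k u v, R k u v → R k v u) (hi : ∀ k u, ¬ R k u u)
    (hd : ∀ u v, R .red u v → ¬ R .blue u v) :
    ∃ (G : SimpleGraph (Fin n)) (c : Sym2 (Fin n) → Colour), ∀ k x y,
      (G.Adj x y ∧ c s(x, y) = k) ↔ R k (e.symm x) (e.symm y) := by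
  refine ⟨⟨fun x y => ∃ k, R k (e.symm x) (e.symm y), ?_, ?_⟩,
    Sym2.lift ⟨fun x y => if R .red (e.symm x) (e.symm y) then .red else .blue, ?_⟩, ?_⟩
  · exact ⟨fun x y ⟨k, hk⟩ => ⟨k, hs _ _ _ hk⟩⟩
  · exact ⟨fun x ⟨k, hk⟩ => hi _ _ hk⟩
  · intro x y
    have : R .red (e.symm x) (e.symm y) ↔ R .red (e.symm y) (e.symm x) :=
      ⟨hs _ _ _, hs _ _ _⟩
    simp only [this]
  · intro k x y
    simp only [Sym2.lift_mk]
    constructor
    · rintro ⟨⟨k', hk'⟩, hc⟩
      split_ifs at hc with h
      · rw [← hc]; exact h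
      · rw [← hc]
        cases k' with
        | red => exact absurd hk' h
        | blue => exact hk'
    · intro h
      refine ⟨⟨k, h⟩, ?_⟩
      cases k with
      | red => rw [if_pos h]
      | blue => rw [if_neg fun h' => hd _ _ h' h]

open Classical in
theorem main (n : ℕ) : ∃ (G : SimpleGraph (Fin n)) (c : Sym2 (Fin n) → Colour),
    ∀ X : Finset (Fin n), Good G c ↑X → X.card ≤ 72 * (n / 217) + n % 217 := by
  set q := n / 217 with hq
  set r := n % 217 with hr
  have hcard : Fintype.card ((Fin q × V0) ⊕ Fin r) = n := by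
    have h0 : Fintype.card V0 = 217 := by
      rw [Fintype.card_sum, Fintype.card_prod, Fintype.card_finset_len]
      simp [Nat.choose]
    rw [Fintype.card_sum, Fintype.card_prod, h0, Fintype.card_fin, Fintype.card_fin]
    omega
  let e : ((Fin q × V0) ⊕ Fin r) ≃ Fin n := Fintype.equivFinOfCardEq hcard
  obtain ⟨G, c, hG⟩ := exists_graph e (rel1 q r) (fun k u v => rel1_symm q r k u v)
    (fun k u => rel1_irrefl q r k u) (fun u v => rel1_disj q r u v)
  refine ⟨G, c, fun X hX => ?_⟩
  have hcopy : ∀ a : Fin q,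
      (univ.filter (fun u : V0 => e (.inl (a, u)) ∈ (X : Set (Fin n)))).card ≤ 72 := by
    intro a
    refine le_trans (le_of_eq ?_) (copy_card hX (fun u => e (.inl (a, u))) ?_ ?_)
    · congr
    · intro u v h
      have := e.injective h
      simpa using this
    · intro k p w
      rw [hG, Equiv.symm_apply_apply]
      obtain ⟨w', rfl⟩ := e.surjective w
      rw [Equiv.symm_apply_apply]
      rcases w' with ⟨b, u⟩ | i
      · simp only [rel1, EmbeddingLike.apply_eq_iff_eq, Sum.inl.injEq, Prod.mk.injEq]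
        constructor
        · rintro ⟨rfl, h⟩
          exact ⟨u, ⟨rfl, rfl⟩, h⟩
        · rintro ⟨u', ⟨rfl, rfl⟩, h⟩
          exact ⟨rfl, h⟩
      · simp [rel1]
  have hX2 : X.card = (univ.filter (fun w : (Fin q × V0) ⊕ Fin r => e w ∈ X)).card := by
    refine Finset.card_bij (fun x _ => e.symm x) ?_ ?_ ?_
    · intro x hx
      simpa using hx
    · intro x _ y _ h
      exact e.symm.injective h
    · intro w hw
      exact ⟨e w, by simpa using hw, by simp⟩
  rw [hX2, Finset.card_filter, Fintype.sum_sum_type, Fintype.sum_prod_type]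
  have h1 : ∑ a : Fin q, ∑ u : V0, (if e (.inl (a, u)) ∈ X then 1 else 0) ≤ q * 72 := by
    calc _ ≤ ∑ _a : Fin q, 72 := by
          refine Finset.sum_le_sum fun a _ => ?_
          have := hcopy a
          rw [Finset.card_filter] at this
          simpa using this
      _ = q * 72 := by simp
  have h2 : ∑ i : Fin r, (if e (.inr i) ∈ X then 1 else 0) ≤ r := by
    calc _ ≤ ∑ _i : Fin r, 1 := by
          refine Finset.sum_le_sum fun a _ => ?_
          split_ifs <;> simp
      _ = r := by simp
  omega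

/-- **Good subsets below `n / 3`.**  For every `n` there is a 2-edge-coloured graph on `n`
vertices in which every good subset has at most `72 ⌊n / 217⌋ + (n mod 217)` vertices; in
particular not every 2-edge-coloured graph on `n` vertices has a good subset with at least
`n / 3` vertices (for instance not every one on `217` vertices). -/
theorem result :
    (∀ n : ℕ, ∃ (G : SimpleGraph (Fin n)) (c : Sym2 (Fin n) → Colour),
      ∀ X : Finset (Fin n), Good G c ↑X → X.card ≤ 72 * (n / 217) + n % 217) ∧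
    (∃ (G : SimpleGraph (Fin 217)) (c : Sym2 (Fin 217) → Colour),
      ∀ X : Finset (Fin 217), Good G c ↑X → (X.card : ℚ) < 217 / 3) ∧
    ¬ ∀ (n : ℕ) (G : SimpleGraph (Fin n)) (c : Sym2 (Fin n) → Colour),
      ∃ X : Finset (Fin n), Good G c ↑X ∧ (n : ℚ) / 3 ≤ X.card := by
  have h217 : ∃ (G : SimpleGraph (Fin 217)) (c : Sym2 (Fin 217) → Colour),
      ∀ X : Finset (Fin 217), Good G c ↑X → (X.card : ℚ) < 217 / 3 := by
    obtain ⟨G, c, h⟩ := main 217
    refine ⟨G, c, fun X hX => ?_⟩
    have h1 : X.card ≤ 72 := by simpa using h X hX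
    have h2 : (X.card : ℚ) ≤ 72 := by exact_mod_cast h1
    linarith
  refine ⟨main, h217, fun hall => ?_⟩
  obtain ⟨G, c, h⟩ := h217
  obtain ⟨X, hX, hc⟩ := hall 217 G c
  have := h X hX
  push_cast at hc
  linarith

end Pool.Agent.Results.MP_1e7754_co.GoodSetsBelowThird
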